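import Pool.Agent.Helper49.KX.St

/-!
# Project KX, module GAP
-/

set_option autoImplicit false

namespace Pool.Agent.Helper92.KX

open Pool.Agent.Helper49.KX
open Finset Filter Topology

theorem not_periodic {X : Type} [TopologicalSpace X] [T2Space X] [Infinite X] (h : X ≃ₜ X)
    (hd : ∀ x, Dense (Set.range fun n : ℤ => (h ^ n : X ≃ₜ X) x)) (t : X) (i : ℕ) (hi : 0 < i) :
    (h ^ (i : ℤ) : X ≃ₜ X) t ≠ t := by
  intro he
  have hmul : ∀ (m n : ℤ) (x : X), (h ^ (m + n) : X ≃ₜ X) x = (h ^ m : X ≃ₜ X) ((h ^ n : X ≃ₜ X) x) := by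
    intro m n x
    rw [zpow_add]
    rfl
  have hk : ∀ k : ℤ, (h ^ ((i : ℤ) * k) : X ≃ₜ X) t = t := by
    intro k
    induction k using Int.induction_on with
    | zero => simp
    | succ k ih =>
      rw [mul_add, mul_one, hmul, he, ih]
    | pred k ih =>
      have h1 : (h ^ ((i : ℤ) * (-(k : ℤ))) : X ≃ₜ X) t
          = (h ^ ((i : ℤ) * (-(k : ℤ) - 1)) : X ≃ₜ X) ((h ^ (i : ℤ) : X ≃ₜ X) t) := by
        rw [← hmul]
        congr 2
        ring
      rw [he] at h1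
      rw [← h1, ih]
  have hfin : (Set.range fun n : ℤ => (h ^ n : X ≃ₜ X) t).Finite := by
    refine ((Set.finite_Ico (0 : ℤ) i).image fun n : ℤ => (h ^ n : X ≃ₜ X) t).subset ?_
    rintro _ ⟨n, rfl⟩
    refine ⟨n % i, ⟨Int.emod_nonneg _ (by positivity), Int.emod_lt_of_pos _ (by exact_mod_cast hi)⟩, ?_⟩
    show (h ^ (n % (i : ℤ)) : X ≃ₜ X) t = (h ^ n : X ≃ₜ X) t
    conv_rhs => rw [← Int.emod_add_mul_ediv n i]
    rw [hmul, hk]
  have huniv : (Set.range fun n : ℤ => (h ^ n : X ≃ₜ X) t) = Set.univ := by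
    rw [← (hd t).closure_eq, hfin.isClosed.closure_eq]
  rw [huniv] at hfin
  exact Set.infinite_univ hfin

theorem hGAP : StGap := by
  classical
  intro hSyn X _ _ _ _ _ h hd V hV hVn N K
  obtain ⟨G, hG⟩ := hSyn X h hd V hV hVn
  have hmul : ∀ (m n : ℤ) (x : X), (h ^ (m + n) : X ≃ₜ X) x = (h ^ m : X ≃ₜ X) ((h ^ n : X ≃ₜ X) x) := by
    intro m n x
    rw [zpow_add]
    rfl
  set L := 2 * N + K * G + 1 with hL
  obtain ⟨t0⟩ : Nonempty X := inferInstance
  have hW : ∀ i : ℕ, ∃ W : Set X, IsClopen W ∧ (0 < i → t0 ∈ W ∧ (h ^ (i : ℤ) : X ≃ₜ X) t0 ∉ W) := by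
    intro i
    by_cases hi : 0 < i
    · obtain ⟨W, hW1, hW2, hW3⟩ :=
        exists_isClopen_of_totally_separated (not_periodic h hd t0 i hi).symm
      exact ⟨W, hW1, fun _ => ⟨hW2, hW3⟩⟩
    · exact ⟨Set.univ, isClopen_univ, fun h => absurd h hi⟩
  choose W hWc hW using hW
  set Yi : ℕ → Set X := fun i => W i ∩ (h ^ (i : ℤ) : X ≃ₜ X) ⁻¹' (W i)ᶜ with hYi
  have hYc : ∀ i, IsClopen (Yi i) := fun i =>
    (hWc i).inter ((hWc i).compl.preimage (h ^ (i : ℤ) : X ≃ₜ X).continuous)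
  set Y0 : Set X := ⋂ i ∈ Finset.Ioo 0 L, Yi i with hY0
  have hsub : ∀ i, 0 < i → i < L → Y0 ⊆ Yi i := by
    intro i h1 h2 x hx
    exact Set.mem_iInter₂.1 hx i (Finset.mem_Ioo.2 ⟨h1, h2⟩)
  refine ⟨Y0, ?_, ⟨t0, ?_⟩, ?_⟩
  · exact isClopen_biInter_finset fun i _ => hYc i
  · refine Set.mem_iInter₂.2 fun i hi => ?_
    obtain ⟨h1, h2⟩ := hW i (Finset.mem_Ioo.1 hi).1
    exact ⟨h1, h2⟩
  · intro t ht r hr
    obtain ⟨hr0, hrY, -⟩ := hr
    have hLr : L ≤ r := by
      by_contra hlt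
      push Not at hlt
      have h1 := (hsub r hr0 hlt ht).2
      exact h1 (hsub r hr0 hlt hrY).1
    have hpos : ∀ a : Fin K, ∃ i : ℕ, i < G ∧
        (h ^ (((N + (a : ℕ) * G + i : ℕ)) : ℤ) : X ≃ₜ X) t ∈ V := by
      intro a
      obtain ⟨i, hi, hiV⟩ := (hG ((h ^ ((N + (a : ℕ) * G : ℕ) : ℤ) : X ≃ₜ X) t)).1
      refine ⟨i, hi, ?_⟩
      rw [← hmul] at hiV
      convert hiV using 3
      push_cast
      ring
    choose p hpG hpV using hpos
    have hlt : ∀ a : Fin K, N + (a : ℕ) * G + p a + N < r := by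
      intro a
      have h1 : ((a : ℕ) + 1) * G ≤ K * G := Nat.mul_le_mul_right G a.2
      have h2 := hpG a
      have h3 : ((a : ℕ) + 1) * G = (a : ℕ) * G + G := by ring
      omega
    have hcard := Finset.card_le_card_of_injOn (s := (Finset.univ : Finset (Fin K)))
      (t := vis h r N V t)
      (fun a => (⟨N + (a : ℕ) * G + p a, by have := hlt a; omega⟩ : Fin r)) ?_ ?_
    · simpa using hcard
    · intro a _
      have h1 := hlt a
      have hnot : (⟨N + (a : ℕ) * G + p a, by omega⟩ : Fin r) ∉ SB r N := by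
        intro hmem
        have h2 := (Finset.mem_filter.1 hmem).2
        simp only at h2
        omega
      apply Finset.mem_coe.2
      unfold vis
      rw [Finset.mem_filter]
      exact ⟨Finset.mem_univ _, hnot, hpV a⟩
    · intro a _ b _ hab
      simp only [Fin.mk.injEq] at hab
      have ha := hpG a
      have hb := hpG b
      apply Fin.ext
      have hGp : 0 < G := by omega
      have e1 : ((a : ℕ) * G + p a) / G = a := by
        rw [mul_comm, Nat.mul_add_div hGp, Nat.div_eq_of_lt ha, add_zero]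
      have e2 : ((b : ℕ) * G + p b) / G = b := by
        rw [mul_comm, Nat.mul_add_div hGp, Nat.div_eq_of_lt hb, add_zero]
      have e3 : (a : ℕ) * G + p a = (b : ℕ) * G + p b := by omega
      rw [← e1, ← e2, e3]

end Pool.Agent.Helper92.KX
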